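import Pool.Agent.H.MP_84cfc0_co.Lin

namespace Pool.Agent.H.MP_84cfc0_co

open Finset Matrix

def sg (m i : ℕ) : ℤ := if m ≤ i then (-1) ^ i else 0

def KK (n m : ℕ) : Matrix (J n ⊕ J n) (J n ⊕ J n) ℤ :=
  fromBlocks (th ℤ n 0)
    (Matrix.of fun a j => Sum.elim (fun _ => 0) (fun t : Fin n => sg m t * bdN ℤ t (wc j)) a)
    (Matrix.of fun a j => Sum.elim (fun _ => 0) (fun t : Fin n => bdN ℤ (n + t) (wc j)) a)
    (Matrix.of fun a j => Sum.elim (fun x : Bt n => ktN ℤ x.1.1 (wc j))
      (fun t : Fin n => sg m (n + t) * bdN ℤ (n + t) (wc j)) a)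

def pos {n : ℕ} : Fin n ⊕ Fin n → ℕ := Sum.elim (fun t => t) (fun t => n + t)

lemma sum_pos {n : ℕ} (f : ℕ → ℤ) : ∑ i : Fin n ⊕ Fin n, f (pos i) = ∑ i ∈ range (n + n), f i := by
  rw [Fintype.sum_sum_type, sum_range_add, ← Fin.sum_univ_eq_sum_range,
    ← Fin.sum_univ_eq_sum_range (fun i => f (n + i))]
  rfl

noncomputable def GG (n m : ℕ) : Matrix (Fin n ⊕ Fin n) (Fin n ⊕ Fin n) ℤ := Matrix.of fun i c =>
  Sum.elim (fun t => ac n (Sum.inr t) (pos i)) (fun t => sg m (pos i) * ac n (Sum.inr t) (pos i)) c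

lemma KK_GG (n m : ℕ) : |(KK n m).det| = |(GG n m).det| := by
  let e := Equiv.sumSumSumComm (Bt n) (Bt n) (Fin n) (Fin n)
  let M := (KK n m * fromBlocks (ps n) 0 0 (ps n)).submatrix e e
  have k1 := fun x c => (Fintype.sum_sum_type _).symm.trans (kt_ps n x c)
  have k2 := fun x c => (Fintype.sum_sum_type _).symm.trans (bd_ps n x c)
  have h1 : M.toBlocks₁₁ = 1 := by
    ext a c
    rcases a with x | x <;> rcases c with y | y <;>
      simp [M, e, toBlocks₁₁, KK, mul_apply, th, k1, one_apply]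
  have h2 : M.toBlocks₁₂ = 0 := by
    ext a c
    rcases a with x | x <;> rcases c with y | y <;>
      simp [M, e, toBlocks₁₂, KK, mul_apply, th, k1]
  have h3 : M.toBlocks₂₂ = GG n m := by
    ext a c
    rcases a with x | x <;> rcases c with y | y <;>
      simp [M, e, toBlocks₂₂, KK, mul_apply, th, k2, GG, pos, mul_assoc, ← mul_sum, ← mul_add]
  have h4 : M.det = (GG n m).det := by
    rw [← fromBlocks_toBlocks M, h1, h2, h3, det_fromBlocks_zero₁₂, det_one, one_mul]
  rw [← h4, det_submatrix_equiv_self, det_mul, det_fromBlocks_zero₁₂, abs_mul, abs_mul_self,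
    Int.isUnit_mul_self (ps_unit n), mul_one]

lemma ac_lt (n : ℕ) (t : Fin n) (i : ℕ) (hi : i < n) :
    ac n (Sum.inr t) i = if i = t then 1 else 0 := by
  have := ac_first n ⟨i, hi⟩ (Sum.inr t)
  simpa [Fin.ext_iff] using this

noncomputable def yy (n : ℕ) (t : Fin n) (i : ℕ) : ℤ :=
  ∑ j ∈ range (n + n), Cc i j * ac n (Sum.inr t) j

lemma yy_lt (n : ℕ) (t : Fin n) (i : ℕ) (hi : i < n) : yy n t i = Cc i t := by
  rw [yy, sum_eq_single (t : ℕ), ac_lt n t t t.2, if_pos rfl, mul_one]
  · intro j _ hj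
    by_cases h : j < n
    · rw [ac_lt n t j h, if_neg hj, mul_zero]
    · rw [Cc, if_neg (by omega), if_neg (by omega), zero_mul]
  · intro h; have := t.2; simp at h; omega

lemma orth (n : ℕ) (t s : Fin n) :
    ∑ i ∈ range (n + n), (-1) ^ i * (ac n (Sum.inr s) i * yy n t i) = 0 :=
  (bc_sol n s).orth (bc_sol n t)

noncomputable def Me (n : ℕ) (t s : Fin n) : ℤ :=
  ∑ i ∈ range (n + n), if i % 2 = 0 then ac n (Sum.inr s) i * yy n t i else 0

lemma GG_Me (n m : ℕ) (hm : m ≤ n) : |(GG n m).det| =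
    2 ^ (n - m) * |(Matrix.of fun t s : {t : Fin n // ¬ (t : ℕ) < m} => Me n t s).det| := by
  let H : Matrix (Fin n ⊕ Fin n) (Fin n ⊕ Fin n) ℤ := Matrix.of fun a i =>
    Sum.elim (fun t : Fin n => if (t : ℕ) < m then (if pos i = t then 1 else 0) else yy n t (pos i))
      (fun s => if i = Sum.inr s then 1 else 0) a
  have hH : H.det = 1 := by
    have a1 : H.toBlocks₂₁ = 0 := by ext a c; simp [H, toBlocks₂₁]
    have a2 : H.toBlocks₂₂ = 1 := by ext a c; simp [H, toBlocks₂₂, one_apply, eq_comm]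
    have a3 : ∀ a c, H.toBlocks₁₁ a c =
        if (a : ℕ) < m then (if (c : ℕ) = a then 1 else 0) else Cc c a := by
      intro a c; rw [← yy_lt n a c c.2]; rfl
    rw [← fromBlocks_toBlocks H, a1, a2, det_fromBlocks_zero₂₁, det_one, mul_one,
      det_of_isUpperTriangular]
    · exact prod_eq_one fun a _ => by simp [a3, Cc]
    · intro a c h
      have h' : (c : ℕ) < a := h
      rw [a3, Cc]
      split_ifs <;> omega
  let M := H * GG n m
  have hrow : ∀ (t : Fin n) (f : ℕ → ℤ), ∑ i, H (Sum.inl t) i * f (pos i) =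
      if (t : ℕ) < m then f t else ∑ i ∈ range (n + n), yy n t i * f i := by
    intro t f
    have := t.2
    split_ifs with h
    · simp only [H, of_apply, Sum.elim_inl, h, if_true]
      rw [sum_pos (fun i => (if i = t then 1 else 0) * f i)]
      simp; omega
    · simp only [H, of_apply, Sum.elim_inl, h, if_false]
      exact sum_pos (fun i => yy n t i * f i)
  have h2 : M.toBlocks₁₂ = 0 := by
    ext t s
    have := hrow t (fun i => sg m i * ac n (Sum.inr s) i)
    simp only [M, toBlocks₁₂, of_apply, mul_apply, GG, Sum.elim_inr, Matrix.zero_apply]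
    rw [this]
    split_ifs with h
    · rw [sg, if_neg (by omega), zero_mul]
    · rw [← orth n t s]
      refine sum_congr rfl fun i _ => ?_
      rw [sg]
      split_ifs with h'
      · ring
      · rw [yy_lt n t i (by omega), Cc, if_neg (by omega), if_neg (by omega)]; simp
  have h3 : M.toBlocks₂₂ = diagonal (fun i : Fin n => (-1 : ℤ) ^ (n + i)) *
      Matrix.of fun i t : Fin n => ac n (Sum.inr t) (n + i) := by
    ext t s
    have : ∀ x : Fin n, m ≤ n + x := fun x => by omega
    simp [M, H, toBlocks₂₂, mul_apply, GG, pos, sg, this, diagonal_apply]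
  have h1 : ∀ t s, M.toBlocks₁₁ t s =
      if (t : ℕ) < m then (if t = s then 1 else 0) else 2 * Me n t s := by
    intro t s
    have := hrow t (fun i => ac n (Sum.inr s) i)
    simp only [M, toBlocks₁₁, of_apply, mul_apply, GG, Sum.elim_inl]
    rw [this]
    split_ifs with h h'
    · rw [ac_lt n s t t.2, if_pos (by rw [h'])]
    · rw [ac_lt n s t t.2, if_neg (fun h => h' (Fin.ext h))]
    · rw [← add_zero (∑ i ∈ range (n + n), _), ← orth n t s, ← sum_add_distrib, Me, mul_sum]
      refine sum_congr rfl fun i _ => ?_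
      split_ifs with hi
      · rw [(Nat.even_iff.2 hi).neg_one_pow]; ring
      · rw [(Nat.odd_iff.2 (by omega)).neg_one_pow]; ring
  have h4 : (GG n m).det = M.det := by rw [det_mul, hH, one_mul]
  have h5 : toSquareBlockProp M.toBlocks₁₁ (fun t => (t : ℕ) < m) = 1 := by
    ext a c
    simp [toSquareBlockProp_def, h1, a.2, one_apply, Subtype.ext_iff]
  have h6 : toSquareBlockProp M.toBlocks₁₁ (fun t => ¬ (t : ℕ) < m) =
      (2 : ℤ) • Matrix.of fun t s : {t : Fin n // ¬ (t : ℕ) < m} => Me n t s := by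
    ext a c
    simp only [toSquareBlockProp_def, of_apply, h1, a.2, if_false, Matrix.smul_apply, smul_eq_mul]
  have hc : Fintype.card {t : Fin n // ¬ (t : ℕ) < m} = n - m := by
    rw [Fintype.card_subtype_compl, Fintype.card_fin, Fintype.card_subtype, Fin.card_filter_val_lt]
    omega
  rw [h4, ← fromBlocks_toBlocks M, h2, h3, det_fromBlocks_zero₁₂, det_mul, det_diagonal,
    twoBlockTriangular_det' M.toBlocks₁₁ (fun t : Fin n => (t : ℕ) < m), h5, h6, det_smul, hc]
  · simp [abs_mul, Int.isUnit_iff_abs_eq.1 (X_unit n), Finset.abs_prod]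
  · intro a ha c hc
    rw [h1, if_pos ha, if_neg]
    rintro rfl
    exact hc ha

lemma Me_symm (n : ℕ) (t s : Fin n) : Me n t s + Me n s t =
    2 * ((∑ i ∈ range (n + n), if i % 2 = 0 then ac n (Sum.inr t) i else 0) *
      ∑ i ∈ range (n + n), if i % 2 = 0 then ac n (Sum.inr s) i else 0) := by
  have h : ∀ t s : Fin n, Me n t s = ∑ i ∈ range (n + n), ∑ j ∈ range (n + n),
      (if i % 2 = 0 then Cc i j else 0) * (ac n (Sum.inr s) i * ac n (Sum.inr t) j) := by
    intro t s
    refine sum_congr rfl fun i _ => ?_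
    split_ifs
    · rw [yy, mul_sum]; exact sum_congr rfl fun j _ => by ring
    · simp
  rw [h t s, h s t, sum_comm, ← sum_add_distrib, sum_mul_sum, mul_sum]
  refine sum_congr rfl fun i _ => ?_
  rw [← sum_add_distrib, mul_sum]
  refine sum_congr rfl fun j _ => ?_
  have : (if j % 2 = 0 then Cc j i else 0) + (if i % 2 = 0 then Cc i j else 0) =
      if i % 2 = 0 ∧ j % 2 = 0 then 2 else 0 := by
    unfold Cc; split_ifs <;> omega
  by_cases hi : i % 2 = 0 <;> by_cases hj : j % 2 = 0 <;>
    simp only [hi, hj, if_true, if_false, and_self, and_false, false_and] at this ⊢ <;>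
    linear_combination (ac n (Sum.inr t) i * ac n (Sum.inr s) j) * this

lemma Me_mod (n : ℕ) (t s : Fin n) : ((Me n t s : ℤ) : ZMod 2) = if t = s then 1 else 0 := by
  have ha : ∀ (t : Fin n), ∀ i < n + n, i % 2 = 0 → ((ac n (Sum.inr t) i : ℤ) : ZMod 2) =
      if i = (if (t : ℕ) % 2 = 0 then (t : ℕ) else n + n - 1 - t) then 1 else 0 := by
    intro t i hi h2
    have := t.2
    by_cases h : i < n
    · rw [ac_lt n t i h]
      split_ifs <;> first | omega | simp
    · rw [ac_symm n t i (n + n - 1 - i) (by omega), ac_lt n t _ (by omega)]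
      split_ifs <;> first | omega | simp
  have hy : ∀ i < n + n, ((yy n t i : ℤ) : ZMod 2) = ac n (Sum.inr t) i := by
    intro i hi
    rw [yy, Int.cast_sum, sum_eq_single i]
    · simp [Cc]
    · intro j _ hj
      rw [Cc, if_neg hj]
      split_ifs
      · push_cast; rw [show (2 : ZMod 2) = 0 by decide, zero_mul]
      · simp
    · intro h; simp at h; omega
  have := t.2; have := s.2
  rw [Me, Int.cast_sum, sum_eq_single (if (t : ℕ) % 2 = 0 then (t : ℕ) else n + n - 1 - t)]
  · have e1 : (if (t : ℕ) % 2 = 0 then (t : ℕ) else n + n - 1 - t) % 2 = 0 := by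
      split_ifs <;> omega
    have e2 : (if (t : ℕ) % 2 = 0 then (t : ℕ) else n + n - 1 - t) < n + n := by
      split_ifs <;> omega
    rw [if_pos e1, Int.cast_mul, hy _ e2, ha t _ e2 e1, ha s _ e2 e1, if_pos rfl, mul_one]
    simp only [Fin.ext_iff]
    split_ifs <;> first | omega | rfl
  · intro i hi hne
    rw [mem_range] at hi
    split_ifs with h2
    · rw [Int.cast_mul, hy _ hi, ha t _ hi h2, if_neg hne, mul_zero]
    · simp
  · intro h
    rw [mem_range] at h
    split_ifs at h <;> omega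

lemma GG_le (n m : ℕ) (hm : m ≤ n) : ∃ k : ℕ, Odd k ∧ |(GG n m).det| = 2 ^ (n - m) * k ^ 2 := by
  rw [GG_Me n m hm]
  set A := (Matrix.of fun t s : {t : Fin n // ¬ (t : ℕ) < m} => Me n t s) with hA
  have h1 : IsSquare ((A.det : ℤ) : ℚ) := by
    have := (Int.castRingHom ℚ).map_det A
    simp only [eq_intCast] at this
    rw [this]
    refine skew_rank_one _ (fun t => ((∑ i ∈ range (n + n),
      if i % 2 = 0 then ac n (Sum.inr t.1) i else 0 : ℤ) : ℚ)) fun a b => ?_
    have := congrArg (Int.cast : ℤ → ℚ) (Me_symm n a b)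
    rw [Int.cast_add, Int.cast_mul, Int.cast_mul] at this
    simpa [hA] using this
  have h2 : ((A.det : ℤ) : ZMod 2) = 1 := by
    have := (Int.castRingHom (ZMod 2)).map_det A
    simp only [eq_intCast] at this
    rw [this]
    have : (Int.castRingHom (ZMod 2)).mapMatrix A = 1 := by
      ext a b
      simp [hA, Me_mod, one_apply, Subtype.ext_iff]
    rw [this, det_one]
  obtain ⟨k, hk⟩ := Rat.isSquare_intCast_iff.1 h1
  refine ⟨k.natAbs, ?_, by rw [hk, abs_mul_self]; simp [pow_two]⟩
  rw [Int.natAbs_odd, ← Int.not_even_iff_odd]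
  rintro ⟨l, rfl⟩
  rw [hk] at h2
  push_cast at h2
  rw [← two_mul, show (2 : ZMod 2) = 0 by decide] at h2
  simp at h2

lemma GG_gt (n m : ℕ) (hn : 0 < n) (hm : n < m) : (GG n m).det = 0 := by
  rw [← exists_vecMul_eq_zero_iff]
  refine ⟨Sum.elim (fun t => -ac n (Sum.inr t) n) (fun s => if (s : ℕ) = 0 then 1 else 0), ?_, ?_⟩
  · intro h
    simpa using congrFun h (Sum.inr ⟨0, hn⟩)
  · funext c
    have e : ∀ f : ℕ → ℤ, ∑ s : Fin n, (if (s : ℕ) = 0 then 1 else 0) * f s = f 0 := by
      intro f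
      rw [sum_eq_single ⟨0, hn⟩] <;> simp [Fin.ext_iff]
      tauto
    rcases c with t | t <;>
      simp only [vecMul, dotProduct, Fintype.sum_sum_type, GG, of_apply, Sum.elim_inl,
        Sum.elim_inr, pos, Pi.zero_apply]
    · rw [e (fun s => ac n (Sum.inr t) (n + s)), sum_eq_single t]
      · simp [ac_lt n t t t.2]
      · intro s _ hs
        rw [ac_lt n t s s.2, if_neg (fun h => hs (Fin.ext h)), mul_zero]
      · simp
    · rw [e (fun s => sg m (n + s) * ac n (Sum.inr t) (n + s)), sum_eq_zero]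
      · simp [sg, hm]
      · intro s _
        have := s.2
        rw [sg, if_neg (by omega)]; simp

end Pool.Agent.H.MP_84cfc0_co
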