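import Pool.Agent.H.MP_84cfc0_co.Big

namespace Pool.Agent.H.MP_84cfc0_co

open Finset Matrix

def gam {N : ℕ} (p : Q N) : ℤ :=
  if (p.1.1 + p.1.2) % 2 = 0 then (if p.1.2 < p.1.1 then (-1) ^ p.1.2 else 1)
  else (if p.1.1 < p.1.2 then (-1) ^ p.1.1 else 1)

lemma gam_abs {N : ℕ} (p : Q N) : |gam p| = 1 := by
  unfold gam; split_ifs <;> simp

lemma npow (k : ℕ) : (-1 : ℤ) ^ k = if k % 2 = 0 then 1 else -1 := by
  split_ifs with h
  · exact (Nat.even_iff.2 h).neg_one_pow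
  · exact (Nat.odd_iff.2 (by omega)).neg_one_pow

def wt {N : ℕ} (x y : Q N) : ℤ := gam x * gam y * (-1) ^ mn x y

lemma wt_eq {N : ℕ} (x y : Q N) (hx : (x.1.1 + x.1.2) % 2 = 0) (h : Adj x.1 y.1) :
    wt x y = if x.1.1 = x.1.2 then (if y.1.1 < y.1.2 then 1 else (-1) ^ x.1.1) else
      if (x.1.1 < x.1.2 ∧ y.1.1 = x.1.1 + 1) ∨ (x.1.2 < x.1.1 ∧ y.1.2 = x.1.2 + 1) then -1
      else 1 := by
  obtain ⟨⟨r, c⟩, h1, h2⟩ := x
  obtain ⟨⟨u, v⟩, h3, h4⟩ := y
  simp only [Adj] at *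
  have hy : ¬ (u + v) % 2 = 0 := by omega
  have hm : mn (⟨(r, c), h1, h2⟩ : Q N) ⟨(u, v), h3, h4⟩ =
      if v < c ∨ r < u then min r c else min u v := by
    simp only [mn, dg]
    split_ifs <;> omega
  simp only [wt, gam, hx, hy, if_true, if_false, hm, npow]
  rcases h with ⟨h, h' | h'⟩ | ⟨h, h' | h'⟩ <;> rcases lt_trichotomy r c with h5 | h5 | h5 <;>
    (try simp (disch := omega) only [if_pos, if_neg]) <;> (try split_ifs) <;> omega

def sw {N : ℕ} (p : Q N) : Q N := ⟨(p.1.2, p.1.1), p.2.2, p.2.1⟩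

def wq {n : ℕ} (j : J n) : Q (n + n) := ⟨wc j, by have := wc_spec j; omega⟩

def be {n : ℕ} : J n ⊕ J n → Q (n + n)
  | Sum.inl (Sum.inl x) => x.1
  | Sum.inl (Sum.inr t) => ⟨(t, t), by have := t.2; constructor <;> simp only <;> omega⟩
  | Sum.inr (Sum.inl x) => sw x.1
  | Sum.inr (Sum.inr t) => ⟨(n + t, n + t), by have := t.2; constructor <;> simp only <;> omega⟩

def om {n : ℕ} : J n ⊕ J n → Q (n + n)
  | Sum.inl j => wq j
  | Sum.inr j => sw (wq j)

lemma be_inj {n : ℕ} : Function.Injective (be (n := n)) := by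
  rintro ((x | x) | (x | x)) ((y | y) | (y | y)) h <;>
    have h1 := x.2 <;> have h2 := y.2 <;> have h3 := congrArg (fun p => p.1.1) h <;>
    have h4 := congrArg (fun p => p.1.2) h <;> simp only [be, sw] at h3 h4 <;>
    first
    | omega
    | (congr 2; exact Subtype.ext (Q_ext (by omega) (by omega)))
    | (congr 2; exact Fin.ext (by omega))

lemma om_inj {n : ℕ} : Function.Injective (om (n := n)) := by
  rintro (x | x) (y | y) h <;>
    have h1 := wc_spec x <;> have h2 := wc_spec y <;> have h3 := congrArg (fun p => p.1.1) h <;>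
    have h4 := congrArg (fun p => p.1.2) h <;> simp only [om, sw, wq] at h3 h4 <;>
    first
    | omega
    | (congr 1; exact wc_inj (Prod.ext (by omega) (by omega)))

lemma be_range {n : ℕ} (y : Q (n + n)) : (y.1.1 + y.1.2) % 2 = 0 ↔ ∃ i, be i = y := by
  constructor
  · intro h
    have := y.2
    rcases lt_trichotomy y.1.1 y.1.2 with h1 | h1 | h1
    · exact ⟨Sum.inl (Sum.inl ⟨y, h1, h⟩), rfl⟩
    · by_cases h2 : y.1.1 < n
      · exact ⟨Sum.inl (Sum.inr ⟨y.1.1, h2⟩), Q_ext rfl h1⟩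
      · exact ⟨Sum.inr (Sum.inr ⟨y.1.1 - n, by omega⟩), Q_ext (by simp only [be]; omega)
          (by simp only [be]; omega)⟩
    · exact ⟨Sum.inr (Sum.inl ⟨sw y, h1, by simp only [sw]; omega⟩), rfl⟩
  · rintro ⟨(x | x) | (x | x), rfl⟩ <;> have := x.2 <;> simp only [be, sw] <;> omega

lemma om_range {n : ℕ} (y : Q (n + n)) : (y.1.1 + y.1.2) % 2 = 1 ↔ ∃ i, om i = y := by
  constructor
  · intro h
    have := y.2
    rcases lt_trichotomy y.1.1 y.1.2 with h1 | h1 | h1
    · obtain ⟨j, hj⟩ := wc_surj (n := n) _ _ h1 (by omega) h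
      exact ⟨Sum.inl j, Subtype.ext hj⟩
    · omega
    · obtain ⟨j, hj⟩ := wc_surj (n := n) _ _ h1 (by omega) (by omega)
      exact ⟨Sum.inr j, Q_ext (by simp [om, sw, wq, hj]) (by simp [om, sw, wq, hj])⟩
  · rintro ⟨x | x, rfl⟩ <;> have := wc_spec x <;> simp only [om, sw, wq] <;> omega

def EE (m : ℕ) {N : ℕ} (x y : Q N) : Prop := ¬ (x.1.1 = x.1.2 ∧ x.1.1 < m) ∨ y.1.1 < y.1.2

instance (m N : ℕ) : DecidableRel (EE m (N := N)) := fun _ _ => by unfold EE; infer_instance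

lemma KK_eq (n m : ℕ) (i j : J n ⊕ J n) : KK n m i j =
    if Adj (be i).1 (om j).1 ∧ EE m (be i) (om j) then wt (be i) (om j) else 0 := by
  have hb := (be_range (be i)).2 ⟨i, rfl⟩
  by_cases h : Adj (be i).1 (om j).1
  · rw [wt_eq _ _ hb h]
    simp only [h, true_and]
    rcases i with (x | x) | (x | x) <;> rcases j with j | j <;>
      have h1 := x.2 <;> have h2 := wc_spec j <;>
      simp only [KK, th, fromBlocks_apply₁₁, fromBlocks_apply₁₂, fromBlocks_apply₂₁,
        fromBlocks_apply₂₂, of_apply, Sum.elim_inl, Sum.elim_inr, be, om, sw, wq, Adj, EE, ktN,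
        bdN, ind, sg, Prod.ext_iff, npow, zero_add, true_and] at h ⊢ <;> clear hb <;>
      rcases h with ⟨h, h' | h'⟩ | ⟨h, h' | h'⟩ <;>
      (try simp (disch := omega) only [if_pos, if_neg]) <;> (try split_ifs) <;> omega
  · simp only [h, false_and, if_false]
    rcases i with (x | x) | (x | x) <;> rcases j with j | j <;>
      have h1 := x.2 <;> have h2 := wc_spec j <;>
      simp only [KK, th, fromBlocks_apply₁₁, fromBlocks_apply₁₂, fromBlocks_apply₂₁,
        fromBlocks_apply₂₂, of_apply, Sum.elim_inl, Sum.elim_inr, be, om, sw, wq, Adj, ktN,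
        bdN, ind, sg, Prod.ext_iff, npow, zero_add] at h ⊢ <;> clear hb <;>
      (try simp (disch := omega) only [if_pos, if_neg]) <;> (try split_ifs) <;> omega

lemma count_eq (n m : ℕ) : |(GG n m).det| = Nat.card {g : Q (n + n) → Q (n + n) //
      (∀ x, g (g x) = x ∧ Adj x.1 (g x).1) ∧ ∀ i, EE m (be i) (g (be i))} := by
  rw [← KK_GG]
  exact kast be om be_inj om_inj be_range om_range (EE m) gam gam_abs _ (KK_eq n m)

end Pool.Agent.H.MP_84cfc0_co
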