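import Mathlib

namespace Pool.Agent.H.MP_84cfc0_co

open Finset

def Adj (p q : ℕ × ℕ) : Prop :=
  (p.1 = q.1 ∧ (p.2 + 1 = q.2 ∨ q.2 + 1 = p.2)) ∨ (p.2 = q.2 ∧ (p.1 + 1 = q.1 ∨ q.1 + 1 = p.1))

instance (p q : ℕ × ℕ) : Decidable (Adj p q) := by unfold Adj; infer_instance

abbrev Q (N : ℕ) := {p : ℕ × ℕ // p.1 < N ∧ p.2 < N}

instance (N : ℕ) : Fintype (Q N) :=
  Fintype.subtype (range N ×ˢ range N) (by simp)

def dg {N : ℕ} (p : Q N) : ℕ := p.1.2 + N - p.1.1

def key {N : ℕ} (p : Q N) : ℕ ×ₗ ℕ := toLex (dg p, p.1.1)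

lemma key_lt {N : ℕ} (p q : Q N) :
    key p < key q ↔ dg p < dg q ∨ (dg p = dg q ∧ p.1.1 < q.1.1) := by
  simp [key, Prod.Lex.toLex_lt_toLex]

lemma Q_ext {N : ℕ} {p q : Q N} (h1 : p.1.1 = q.1.1) (h2 : p.1.2 = q.1.2) : p = q :=
  Subtype.ext (Prod.ext h1 h2)

lemma key_inj {N : ℕ} : Function.Injective (key (N := N)) := by
  intro p q h
  have h' := toLex.injective h
  simp only [Prod.mk.injEq, dg] at h'
  have := p.2; have := q.2
  exact Q_ext h'.2 (by omega)

lemma exists_mono {I γ : Type} [Fintype I] [LinearOrder γ] (k : I → γ)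
    (hk : Function.Injective k) :
    ∃ e : Fin (Fintype.card I) ≃ I, ∀ a b, k (e a) < k (e b) ↔ a < b := by
  let _ : LinearOrder I := LinearOrder.lift' k hk
  exact ⟨(monoEquivOfFin I rfl).toEquiv, fun a b => (monoEquivOfFin I rfl).lt_iff_lt⟩

lemma pairs_lt {I γ : Type} [LinearOrder γ] (k : I → γ) (hk : Function.Injective k)
    (s : Finset I) : #{x ∈ s ×ˢ s | k x.1 < k x.2} = (#s).choose 2 := by
  let _ : LinearOrder I := LinearOrder.lift' k hk
  rw [← card_product_filter_lt]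
  congr 1

lemma sign_eq {I γ : Type} [Fintype I] [DecidableEq I] [LinearOrder γ] (k1 k2 : I → γ)
    (h1 : Function.Injective k1) (h2 : Function.Injective k2) :
    ∃ c : ℤ, c * c = 1 ∧ ∀ π : Equiv.Perm I, ((Equiv.Perm.sign π : ℤˣ) : ℤ) =
      c * (-1) ^ #{z : I × I | k1 z.1 < k1 z.2 ∧ k2 (π z.2) < k2 (π z.1)} := by
  obtain ⟨e1, he1⟩ := exists_mono k1 h1
  obtain ⟨e2, he2⟩ := exists_mono k2 h2
  let ρ : Equiv.Perm (Fin (Fintype.card I)) := e2.trans e1.symm
  refine ⟨((Equiv.Perm.sign ρ : ℤˣ) : ℤ), by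
    rw [← Units.val_mul, Int.units_mul_self]; rfl, fun π => ?_⟩
  let τ : Equiv.Perm (Fin (Fintype.card I)) := (e1.trans π).trans e2.symm
  have h : e1.symm.permCongr π = ρ * τ := by
    ext a; simp [ρ, τ]
  rw [← Equiv.Perm.sign_permCongr e1.symm π, h, Equiv.Perm.sign_mul, Units.val_mul]
  congr 1
  rw [Equiv.Perm.sign_eq_prod_prod_Ioi, Finset.prod_sigma', Units.coe_prod]
  simp only [apply_ite (Units.val : ℤˣ → ℤ), Units.val_one, Units.val_neg]
  rw [Finset.prod_ite]
  simp only [prod_const_one, one_mul, prod_const]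
  congr 1
  refine Finset.card_bij (fun z _ => (e1 z.1, e1 z.2)) ?_ ?_ ?_
  · rintro ⟨a, b⟩ hz
    simp only [mem_filter, mem_sigma, mem_univ, mem_Ioi, true_and, not_lt] at hz ⊢
    refine ⟨(he1 _ _).2 hz.1, ?_⟩
    have h3 : τ b < τ a := lt_of_le_of_ne hz.2 (fun h => hz.1.ne' (τ.injective h))
    have := (he2 _ _).2 h3
    simpa [τ] using this
  · rintro ⟨a, b⟩ _ ⟨c, d⟩ _ h
    simp only [Prod.mk.injEq, EmbeddingLike.apply_eq_iff_eq] at h
    obtain ⟨rfl, rfl⟩ := h
    rfl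
  · rintro ⟨a, b⟩ hz
    simp only [mem_filter, mem_univ, true_and] at hz
    refine ⟨⟨e1.symm a, e1.symm b⟩, ?_, by simp⟩
    simp only [mem_filter, mem_sigma, mem_univ, mem_Ioi, true_and, not_lt]
    refine ⟨(he1 _ _).1 (by simpa using hz.1), le_of_lt ((he2 _ _).1 ?_)⟩
    simpa [τ] using hz.2

section
variable {N : ℕ} (g : Q N → Q N) (hg : ∀ x, g (g x) = x) (ha : ∀ x, Adj x.1 (g x).1)
include hg ha

lemma inv_eq :
    #{z : Q N × Q N | (z.1.1.1 + z.1.1.2) % 2 = 0 ∧ (z.2.1.1 + z.2.1.2) % 2 = 0 ∧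
      key z.1 < key z.2 ∧ key (g z.2) < key (g z.1)} =
    #{z : Q N × Q N | dg z.1 = dg z.2 ∧ z.1.1.1 < z.2.1.1 ∧ ¬ dg (g z.1) < dg z.1 ∧
      dg (g z.2) < dg z.2} := by
  have hne : ∀ x y : Q N, (x.1.1 = y.1.1 ∧ x.1.2 = y.1.2) ∨
      ¬ ((g x).1.1 = (g y).1.1 ∧ (g x).1.2 = (g y).1.2) := by
    intro x y
    by_cases h : (g x).1.1 = (g y).1.1 ∧ (g x).1.2 = (g y).1.2
    · have := congrArg g (Q_ext h.1 h.2)
      rw [hg, hg] at this
      subst this
      simp
    · exact Or.inr h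
  refine Finset.card_bij' (fun z _ => if dg z.1 = dg z.2 then z else (g z.2, g z.1))
    (fun z _ => if (z.1.1.1 + z.1.1.2) % 2 = 0 then z else (g z.2, g z.1)) ?_ ?_ ?_ ?_
  · rintro ⟨x, y⟩ hz
    have h1 := ha x; have h2 := ha y; have h3 := hne x y
    have := x.2; have := y.2; have := (g x).2; have := (g y).2
    simp only [mem_filter, mem_univ, true_and, key_lt] at hz ⊢
    split_ifs with h <;> simp only [hg, dg, Adj] at * <;> omega
  · rintro ⟨x, y⟩ hz
    have h1 := ha x; have h2 := ha y; have h3 := hne x y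
    have := x.2; have := y.2; have := (g x).2; have := (g y).2
    simp only [mem_filter, mem_univ, true_and, key_lt] at hz ⊢
    split_ifs with h <;> simp only [hg, dg, Adj] at * <;> omega
  · rintro ⟨x, y⟩ hz
    have h1 := ha x; have h2 := ha y
    simp only [mem_filter, mem_univ, true_and] at hz
    by_cases h : dg x = dg y
    · simp [h, hz.1]
    · have : ¬ ((g y).1.1 + (g y).1.2) % 2 = 0 := by
        simp only [Adj] at h2; omega
      simp [h, this, hg]
  · rintro ⟨x, y⟩ hz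
    have h1 := ha x; have h2 := ha y
    have := x.2; have := y.2; have := (g x).2; have := (g y).2
    simp only [mem_filter, mem_univ, true_and] at hz
    by_cases h : (x.1.1 + x.1.2) % 2 = 0
    · simp [h, hz.1]
    · have : ¬ dg (g y) = dg (g x) := by omega
      simp [h, this, hg]

omit hg ha in
lemma card_before (y : Q N) :
    #{x : Q N | dg x = dg y ∧ x.1.1 < y.1.1} = min y.1.1 y.1.2 := by
  rw [← card_range (min y.1.1 y.1.2)]
  have := y.2
  refine Finset.card_bij (fun x _ => y.1.1 - x.1.1 - 1) ?_ ?_ ?_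
  · intro x hx
    have := x.2
    simp only [mem_filter, mem_univ, true_and, dg, mem_range] at hx ⊢
    omega
  · intro x hx x' hx' h
    have := x.2; have := x'.2
    simp only [mem_filter, mem_univ, true_and, dg] at hx hx'
    exact Q_ext (by omega) (by omega)
  · intro b hb
    simp only [mem_range] at hb
    refine ⟨⟨(y.1.1 - b - 1, y.1.2 - b - 1), by constructor <;> simp only <;> omega⟩, ?_, ?_⟩
    · simp only [mem_filter, mem_univ, true_and, dg]; omega
    · simp only; omega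

omit hg ha in
lemma sum_min :
    #{z : Q N × Q N | dg z.1 = dg z.2 ∧ z.1.1.1 < z.2.1.1 ∧ dg (g z.2) < dg z.2} =
      ∑ y : Q N, if dg (g y) < dg y then min y.1.1 y.1.2 else 0 := by
  rw [card_filter, Fintype.sum_prod_type_right]
  refine sum_congr rfl fun y _ => ?_
  split_ifs with h
  · rw [← card_before y, card_filter]; simp [h]
  · simp [h]

omit g hg ha in
def dn (N : ℕ) : ℕ → ℕ
  | 0 => 0
  | k + 1 => #{y : Q N | dg y = k} - dn N k

lemma cnt_dn (k : ℕ) : #{y : Q N | dg y = k ∧ dg (g y) < dg y} = dn N k := by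
  induction k with
  | zero => simp [dn]; intro a b h1 h2 h3; omega
  | succ k ih =>
    rw [dn, ← ih]
    have h1 : #{y : Q N | dg y = k ∧ dg (g y) < dg y} + #{y : Q N | dg y = k ∧ ¬ dg (g y) < dg y}
        = #{y : Q N | dg y = k} := by
      rw [← filter_filter, ← filter_filter, card_filter_add_card_filter_not]
    rw [← h1, Nat.add_sub_cancel_left]
    refine Finset.card_bij' (fun y _ => g y) (fun y _ => g y) ?_ ?_ (fun y _ => hg y)
      (fun y _ => hg y)
    · intro y hy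
      have h1 := ha y
      have := y.2; have := (g y).2
      simp only [mem_filter, mem_univ, true_and, hg, dg, Adj] at *
      omega
    · intro y hy
      have h1 := ha y
      have := y.2; have := (g y).2
      simp only [mem_filter, mem_univ, true_and, hg, dg, Adj] at *
      omega

lemma dd_eq :
    #{z : Q N × Q N | dg z.1 = dg z.2 ∧ z.1.1.1 < z.2.1.1 ∧ dg (g z.1) < dg z.1 ∧
      dg (g z.2) < dg z.2} = ∑ k ∈ range (2 * N), (dn N k).choose 2 := by
  rw [card_eq_sum_card_fiberwise (f := fun z => dg z.1) (t := range (2 * N))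
    (fun z _ => by have := z.1.2; simp only [coe_range, Set.mem_Iio, dg]; omega)]
  refine sum_congr rfl fun k _ => ?_
  rw [← cnt_dn g hg ha k, ← pairs_lt key key_inj]
  congr 1
  ext ⟨x, y⟩
  simp only [mem_filter, mem_univ, true_and, mem_product, key_lt]
  omega

lemma par_eq :
    #{z : Q N × Q N | (z.1.1.1 + z.1.1.2) % 2 = 0 ∧ (z.2.1.1 + z.2.1.2) % 2 = 0 ∧
      key z.1 < key z.2 ∧ key (g z.2) < key (g z.1)} + ∑ k ∈ range (2 * N), (dn N k).choose 2 =
      ∑ y : Q N, if dg (g y) < dg y then min y.1.1 y.1.2 else 0 := by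
  rw [inv_eq g hg ha, ← dd_eq g hg ha, ← sum_min g, add_comm,
    ← card_filter_add_card_filter_not (s := ({z : Q N × Q N | dg z.1 = dg z.2 ∧
      z.1.1.1 < z.2.1.1 ∧ dg (g z.2) < dg z.2} : Finset _))
      (fun z : Q N × Q N => dg (g z.1) < dg z.1),
    filter_filter, filter_filter]
  refine congrArg₂ (· + ·) (congrArg card ?_) (congrArg card ?_) <;> ext z <;>
    simp only [mem_filter, mem_univ, true_and] <;> tauto

end

def mn {N : ℕ} (x y : Q N) : ℕ := if dg y < dg x then min x.1.1 x.1.2 else min y.1.1 y.1.2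

theorem kast {N : ℕ} {I : Type} [Fintype I] [DecidableEq I] (β ω : I → Q N)
    (hβ : Function.Injective β) (hω : Function.Injective ω)
    (hb : ∀ y : Q N, (y.1.1 + y.1.2) % 2 = 0 ↔ ∃ i, β i = y)
    (hw : ∀ y : Q N, (y.1.1 + y.1.2) % 2 = 1 ↔ ∃ i, ω i = y)
    (E : Q N → Q N → Prop) [DecidableRel E] (γ : Q N → ℤ) (hγ : ∀ y, |γ y| = 1)
    (K : Matrix I I ℤ)
    (hK : ∀ i j, K i j = if Adj (β i).1 (ω j).1 ∧ E (β i) (ω j) then
      γ (β i) * γ (ω j) * (-1) ^ mn (β i) (ω j) else 0) :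
    |K.det| = Nat.card {g : Q N → Q N //
      (∀ x, g (g x) = x ∧ Adj x.1 (g x).1) ∧ ∀ i, E (β i) (g (β i))} := by
  have hb' : ∀ i, ((β i).1.1 + (β i).1.2) % 2 = 0 := fun i => (hb _).2 ⟨i, rfl⟩
  have hw' : ∀ i, ((ω i).1.1 + (ω i).1.2) % 2 = 1 := fun i => (hw _).2 ⟨i, rfl⟩
  have hbij : Function.Bijective (Sum.elim β ω) := by
    constructor
    · refine hβ.sumElim hω fun a b h => ?_
      have h1 := hb' a; have h2 := hw' b
      rw [h] at h1; omega
    · intro y
      rcases Nat.mod_two_eq_zero_or_one (y.1.1 + y.1.2) with h | h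
      · obtain ⟨i, hi⟩ := (hb y).1 h; exact ⟨Sum.inl i, hi⟩
      · obtain ⟨i, hi⟩ := (hw y).1 h; exact ⟨Sum.inr i, hi⟩
  let eQ : I ⊕ I ≃ Q N := Equiv.ofBijective _ hbij
  have e1 : ∀ i, eQ.symm (β i) = Sum.inl i := fun i => eQ.symm_apply_eq.2 rfl
  have e2 : ∀ i, eQ.symm (ω i) = Sum.inr i := fun i => eQ.symm_apply_eq.2 rfl
  let G : Equiv.Perm I → Q N → Q N := fun π y =>
    Sum.elim (fun i => ω (π i)) (fun i => β (π.symm i)) (eQ.symm y)
  have G1 : ∀ π i, G π (β i) = ω (π i) := fun π i => by simp [G, e1]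
  have G2 : ∀ π i, G π (ω i) = β (π.symm i) := fun π i => by simp [G, e2]
  have cs : ∀ y : Q N, (∃ i, β i = y) ∨ ∃ i, ω i = y := fun y => by
    rw [← hb, ← hw]; omega
  have Ginv : ∀ π y, G π (G π y) = y := fun π y => by
    rcases cs y with ⟨i, rfl⟩ | ⟨i, rfl⟩ <;> simp [G1, G2]
  let P : Equiv.Perm I → Prop := fun π => ∀ i, Adj (β i).1 (ω (π i)).1 ∧ E (β i) (ω (π i))
  have Gadj : ∀ π, P π → ∀ y, Adj y.1 (G π y).1 := fun π h y => by
    rcases cs y with ⟨i, rfl⟩ | ⟨i, rfl⟩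
    · rw [G1]; exact (h i).1
    · rw [G2]
      have := (h (π.symm i)).1
      rw [Equiv.apply_symm_apply] at this
      simp only [Adj] at this ⊢; omega
  obtain ⟨c, hc, hs⟩ := sign_eq (fun i => key (β i)) (fun i => key (ω i))
    (key_inj.comp hβ) (key_inj.comp hω)
  set D := ∑ k ∈ range (2 * N), (dn N k).choose 2 with hD
  have hterm : ∀ π : Equiv.Perm I, ((Equiv.Perm.sign π : ℤˣ) : ℤ) * ∏ i, K i (π i) =
      if P π then c * (-1) ^ D * ((∏ i, γ (β i)) * ∏ i, γ (ω i)) else 0 := by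
    intro π
    split_ifs with h
    · have h1 : ∏ i, K i (π i) = ((∏ i, γ (β i)) * ∏ i, γ (ω i)) *
          (-1) ^ ∑ i, mn (β i) (ω (π i)) := by
        rw [← Equiv.prod_comp π (fun i => γ (ω i)), ← prod_mul_distrib, ← prod_pow_eq_pow_sum,
          ← prod_mul_distrib]
        exact prod_congr rfl fun i _ => by rw [hK, if_pos (h i)]
      have h2 := par_eq (G π) (Ginv π) (Gadj π h)
      have h3 : (∑ y : Q N, if dg (G π y) < dg y then min y.1.1 y.1.2 else 0) =
          ∑ i, mn (β i) (ω (π i)) := by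
        rw [← Equiv.sum_comp eQ, Fintype.sum_sum_type,
          ← Equiv.sum_comp π (fun i => if dg (G π (eQ (Sum.inr i))) < dg (eQ (Sum.inr i)) then
            min (eQ (Sum.inr i)).1.1 (eQ (Sum.inr i)).1.2 else 0), ← sum_add_distrib]
        refine sum_congr rfl fun i _ => ?_
        have a1 : eQ (Sum.inl i) = β i := rfl
        have a2 : eQ (Sum.inr (π i)) = ω (π i) := rfl
        rw [a1, a2, G1, G2, Equiv.symm_apply_apply, mn]
        have := (h i).1
        have := (β i).2; have := (ω (π i)).2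
        simp only [Adj, dg] at *
        split_ifs <;> omega
      have h4 : #{z : Q N × Q N | (z.1.1.1 + z.1.1.2) % 2 = 0 ∧ (z.2.1.1 + z.2.1.2) % 2 = 0 ∧
          key z.1 < key z.2 ∧ key (G π z.2) < key (G π z.1)} =
          #{z : I × I | key (β z.1) < key (β z.2) ∧ key (ω (π z.2)) < key (ω (π z.1))} := by
        symm
        refine Finset.card_bij (fun z _ => (β z.1, β z.2)) ?_ ?_ ?_
        · rintro ⟨a, b⟩ hz
          simpa [hb', G1] using hz
        · rintro ⟨a, b⟩ _ ⟨a', b'⟩ _ h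
          simp only [Prod.mk.injEq] at h ⊢
          exact ⟨hβ h.1, hβ h.2⟩
        · rintro ⟨x, y⟩ hz
          simp only [mem_filter, mem_univ, true_and] at hz
          obtain ⟨a, rfl⟩ := (hb x).1 hz.1
          obtain ⟨b, rfl⟩ := (hb y).1 hz.2.1
          exact ⟨(a, b), by simpa [G1] using hz.2.2, rfl⟩
      rw [h1, hs π, ← h3, ← h2, h4, pow_add, ← hD]
      generalize #{z : I × I | key (β z.1) < key (β z.2) ∧
        key (ω (π z.2)) < key (ω (π z.1))} = t
      have : ((-1 : ℤ) ^ t) * (-1) ^ t = 1 := by rw [← mul_pow]; simp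
      linear_combination (c * (-1) ^ D * ((∏ i, γ (β i)) * ∏ i, γ (ω i))) * this
    · simp only [P, not_forall] at h
      obtain ⟨i, hi⟩ := h
      rw [prod_eq_zero (mem_univ i) (by rw [hK, if_neg hi]), mul_zero]
  have hdet : K.det = (#{π | P π} : ℤ) * (c * (-1) ^ D * ((∏ i, γ (β i)) * ∏ i, γ (ω i))) := by
    rw [← Matrix.det_transpose, Matrix.det_apply']
    simp only [Matrix.transpose_apply, Int.cast_id]
    rw [sum_congr rfl fun π _ => hterm π, ← sum_filter, sum_const, nsmul_eq_mul]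
  have hcabs : |c| = 1 := by
    rcases Int.eq_one_or_neg_one_of_mul_eq_one hc with h | h <;> simp [h]
  rw [hdet]
  simp only [abs_mul, hcabs, abs_pow, abs_neg, abs_one, one_pow, Finset.abs_prod, hγ,
    prod_const_one, mul_one, Nat.abs_cast]
  congr 1
  rw [← Fintype.card_subtype, ← Nat.card_eq_fintype_card]
  refine Nat.card_eq_of_bijective (fun π => ⟨G π.1, fun x => ⟨Ginv _ x, Gadj _ π.2 x⟩,
    fun i => by rw [G1]; exact (π.2 i).2⟩) ⟨?_, ?_⟩
  · rintro ⟨π, _⟩ ⟨π', _⟩ h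
    simp only [Subtype.mk.injEq] at h ⊢
    ext i
    have := congrFun h (β i)
    rw [G1, G1] at this
    exact hω this
  · rintro ⟨g, hg, hE⟩
    have x1 : ∀ i, ∃ j, ω j = g (β i) := fun i => (hw _).1 (by
      have := (hg (β i)).2; have := hb' i; simp only [Adj] at *; omega)
    have x2 : ∀ j, ∃ i, β i = g (ω j) := fun j => (hb _).1 (by
      have := (hg (ω j)).2; have := hw' j; simp only [Adj] at *; omega)
    choose f1 hf1 using x1
    choose f2 hf2 using x2
    let π : Equiv.Perm I := ⟨f1, f2, fun i => hβ (by rw [hf2, hf1, (hg _).1]),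
      fun j => hω (by rw [hf1, hf2, (hg _).1])⟩
    refine ⟨⟨π, fun i => ?_⟩, Subtype.ext (funext fun y => ?_)⟩
    · have : ω (π i) = g (β i) := hf1 i
      rw [this]; exact ⟨(hg _).2, hE i⟩
    · rcases cs y with ⟨i, rfl⟩ | ⟨i, rfl⟩
      · exact (G1 _ _).trans (hf1 i)
      · exact (G2 _ _).trans (hf2 i)

end Pool.Agent.H.MP_84cfc0_co
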