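import Mathlib

namespace Pool.Agent.H.MP_84cfc0_co

open Finset

variable {R : Type} [CommRing R]

def sh (x : ℕ → R) : ℕ → R
  | 0 => 0
  | i + 1 => x i

@[simp] lemma sh_zero (x : ℕ → R) : sh x 0 = 0 := rfl

@[simp] lemma sh_succ (x : ℕ → R) (i : ℕ) : sh x (i + 1) = x i := rfl

structure Sol (n : ℕ) (b : ℕ → ℕ → R) : Prop where
  zero : ∀ e i, n + n ≤ i + (2 * e + 1) → b e i = 0
  eq : ∀ e i, i + (2 * e + 2) < n + n → b e (i + 1) - b e i = b (e + 1) i + sh (b (e + 1)) i

lemma up_zero (x : ℕ → R) (k : ℕ) (h : ∀ i < k, x i + sh x i = 0) : ∀ i < k, x i = 0 := by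
  intro i
  induction i with
  | zero => intro hi; simpa using h 0 hi
  | succ i ih =>
    intro hi
    have := h (i + 1) hi
    rw [sh_succ, ih (by omega)] at this
    simpa using this

lemma down_zero (x : ℕ → R) (lo hi : ℕ) (h : ∀ i, lo ≤ i → i < hi → x (i + 1) + x i = 0)
    (hz : ∀ i, hi ≤ i → x i = 0) : ∀ i, lo ≤ i → x i = 0 := by
  have : ∀ k i, hi ≤ i + k → lo ≤ i → x i = 0 := by
    intro k
    induction k with
    | zero => intro i h1 _; exact hz i h1
    | succ k ih =>
      intro i h1 h2
      by_cases h3 : hi ≤ i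
      · exact hz i h3
      · have := h i h2 (by omega)
        rw [ih (i + 1) (by omega) (by omega)] at this
        simpa using this
  exact fun i hi' => this hi i (by omega) hi'

lemma Sol.down {n : ℕ} {b : ℕ → ℕ → R} (_h : Sol n b) (P : ℕ → Prop)
    (h0 : ∀ e, n ≤ e → P e) (hs : ∀ e < n, P (e + 1) → P e) : ∀ e, P e := by
  have : ∀ k e, n ≤ e + k → P e := by
    intro k
    induction k with
    | zero => exact h0
    | succ k ih =>
      intro e he
      by_cases h3 : n ≤ e
      · exact h0 e h3
      · exact hs e (by omega) (ih _ (by omega))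
  exact fun e => this n e (by omega)

lemma Sol.allzero {n : ℕ} {b : ℕ → ℕ → R} (h : Sol n b)
    (h1 : ∀ e < n, ∃ i, i + (2 * e + 1) < n + n ∧ b e i = 0) : ∀ e i, b e i = 0 := by
  refine h.down (fun e => ∀ i, b e i = 0) (fun e he i => h.zero e i (by omega)) ?_
  intro e he ih
  have hc : ∀ i, i + (2 * e + 1) < n + n → b e i = b e 0 := by
    intro i
    induction i with
    | zero => intro _; rfl
    | succ i ih2 =>
      intro hi
      have := h.eq e i (by omega)
      have h2 : sh (b (e + 1)) i = 0 := by cases i <;> simp [ih]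
      rw [ih, h2, ih2 (by omega)] at this
      linear_combination this
  obtain ⟨i0, hi0, hz⟩ := h1 e he
  intro i
  by_cases hi : i + (2 * e + 1) < n + n
  · rw [hc i hi, ← hc i0 hi0, hz]
  · exact h.zero e i (by omega)

lemma Sol.inj_first {n : ℕ} {b : ℕ → ℕ → R} (h : Sol n b)
    (ha : ∀ i < n, b 0 i + sh (b 0) i = 0) : ∀ e i, b e i = 0 := by
  have : ∀ e, ∀ i < n - e, b e i = 0 := by
    intro e
    induction e with
    | zero => exact up_zero _ _ ha
    | succ e ih =>
      refine up_zero _ _ fun i hi => ?_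
      rw [← h.eq e i (by omega), ih _ (by omega), ih _ (by omega), sub_zero]
  exact h.allzero fun e he => ⟨0, by omega, this e 0 (by omega)⟩

lemma Sol.inj_last {n : ℕ} {b : ℕ → ℕ → R} (h : Sol n b)
    (ha : ∀ i < n, b 0 (n + i) + sh (b 0) (n + i) = 0) : ∀ e i, b e i = 0 := by
  have : ∀ e < n, ∀ i, n - 1 - e ≤ i → b e i = 0 := by
    intro e
    induction e with
    | zero =>
      intro hn
      refine down_zero _ _ (n + n - 1) (fun i h1 h2 => ?_) (fun i hi => h.zero 0 i (by omega))
      have := ha (i + 1 - n) (by omega)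
      rwa [show n + (i + 1 - n) = i + 1 by omega] at this
    | succ e ih =>
      intro he
      refine down_zero _ _ (n + n - (2 * e + 3)) (fun i h1 h2 => ?_)
        (fun i hi => h.zero _ i (by omega))
      have := h.eq e (i + 1) (by omega)
      rw [ih (by omega) _ (by omega), ih (by omega) _ (by omega), sub_zero] at this
      exact this.symm
  exact h.allzero fun e he => ⟨n + n - (2 * e + 2), by omega, this e he _ (by omega)⟩

lemma Sol.symm2 {n : ℕ} {b : ℕ → ℕ → R} (h : Sol n b) (h2 : (2 : R) = 0) :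
    ∀ e i j, i + j + (2 * e + 2) = n + n → b e i = b e j := by
  refine h.down (fun e => ∀ i j, i + j + (2 * e + 2) = n + n → b e i = b e j)
    (fun e he i j hij => by omega) ?_
  intro e he ih
  have hs : ∀ i j, i + j + (2 * e + 3) = n + n → b (e + 1) i = sh (b (e + 1)) j := by
    intro i j hij
    cases j with
    | zero => exact h.zero _ _ (by omega)
    | succ j => exact ih i j (by omega)
  have : ∀ k i j, i + j + (2 * e + 2) = n + n → j = i + 2 * k → b e i = b e j := by
    intro k
    induction k with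
    | zero => rintro i j _ rfl; rfl
    | succ k ihk =>
      intro i j hij hk
      obtain ⟨j, rfl⟩ : ∃ j', j = j' + 1 := ⟨j - 1, by omega⟩
      have e1 := h.eq e i (by omega)
      have e2 := h.eq e j (by omega)
      have e3 := ihk (i + 1) j (by omega) (by omega)
      have e4 := hs i j (by omega)
      have e5 := hs j i (by omega)
      linear_combination -e1 - e2 + e3 - e4 - e5
        - (sh (b (e + 1)) i + sh (b (e + 1)) j) * h2
  intro i j hij
  rcases le_total i j with h1 | h1
  · exact this ((j - i) / 2) i j hij (by omega)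
  · exact (this ((i - j) / 2) j i (by omega) (by omega)).symm

lemma Sol.asymm {n : ℕ} {b : ℕ → ℕ → R} (h : Sol n b) (h2 : (2 : R) = 0) (i j : ℕ)
    (hij : i + j + 1 = n + n) : b 0 i + sh (b 0) i = b 0 j + sh (b 0) j := by
  have hs : ∀ i j, i + j + 1 = n + n → b 0 i = sh (b 0) j := by
    intro i j hij
    cases j with
    | zero => exact h.zero _ _ (by omega)
    | succ j => exact h.symm2 h2 0 i j (by omega)
  rw [hs i j hij, hs j i (by omega), add_comm]

lemma Sol.green {n : ℕ} {b b' : ℕ → ℕ → R} (h : Sol n b) (h' : Sol n b') (e : ℕ) :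
    ∀ k, n + n ≤ k + (2 * e + 2) →
      ∑ i ∈ range k, (-1) ^ i * (b e i * b' e (i + 1) - b e (i + 1) * b' e i) = 0 := by
  revert e
  refine h.down _ (fun e he k _ => sum_eq_zero fun i _ => by
    rw [h.zero e i (by omega), h'.zero e i (by omega)]; simp) ?_
  intro e he ih
  have key : ∀ k, k + (2 * e + 1) < n + n →
      ∑ i ∈ range k, (-1) ^ i * (b e i * b' e (i + 1) - b e (i + 1) * b' e i) =
      -((-1) ^ k * (b e k * sh (b' (e + 1)) k - sh (b (e + 1)) k * b' e k)) -
      ∑ i ∈ range k, (-1) ^ i * (sh (b (e + 1)) i * b' (e + 1) i -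
        b (e + 1) i * sh (b' (e + 1)) i) := by
    intro k
    induction k with
    | zero => intro _; simp
    | succ k ihk =>
      intro hk
      rw [sum_range_succ, sum_range_succ, ihk (by omega)]
      have e1 := h.eq e k (by omega)
      have e2 := h'.eq e k (by omega)
      have e1' : b e (k + 1) = b e k + (b (e + 1) k + sh (b (e + 1)) k) := by
        linear_combination e1
      have e2' : b' e (k + 1) = b' e k + (b' (e + 1) k + sh (b' (e + 1)) k) := by
        linear_combination e2
      simp only [sh_succ]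
      rw [e1', e2']
      ring
  have hM : ∑ i ∈ range (n + n - (2 * e + 2)),
      (-1) ^ i * (b e i * b' e (i + 1) - b e (i + 1) * b' e i) = 0 := by
    rw [key _ (by omega)]
    rcases Nat.eq_zero_or_pos (n + n - (2 * e + 2)) with h0 | h0
    · simp [h0]
    obtain ⟨k, hk⟩ : ∃ k, n + n - (2 * e + 2) = k + 1 := ⟨_, (Nat.succ_pred_eq_of_pos h0).symm⟩
    rw [hk, sum_range_succ']
    simp only [sh_succ]
    rw [h.zero (e + 1) k (by omega), h'.zero (e + 1) k (by omega)]
    have := ih k (by omega)
    simp only [pow_succ, mul_neg, mul_one, neg_mul, sum_neg_distrib, this]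
    simp
  intro k hk
  obtain ⟨l, rfl⟩ : ∃ l, k = n + n - (2 * e + 2) + l := ⟨k - (n + n - (2 * e + 2)), by omega⟩
  rw [sum_range_add, hM, zero_add]
  exact sum_eq_zero fun i _ => by
    rw [h.zero e (_ + 1) (by omega), h'.zero e (_ + 1) (by omega)]; simp

def Cc (i j : ℕ) : ℤ := if j = i then 1 else if j < i ∧ (i + j) % 2 = 0 then 2 else 0

lemma cum_step (N : ℕ) (x : ℕ → ℤ) : ∀ i, i + 1 < N →
    ∑ j ∈ range N, Cc (i + 1) j * (x j + sh x j) - ∑ j ∈ range N, Cc i j * (x j + sh x j) =
      x (i + 1) + sh x i := by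
  have h2 : ∀ i, i + 2 < N → ∑ j ∈ range N, Cc (i + 2) j * (x j + sh x j) =
      ∑ j ∈ range N, Cc i j * (x j + sh x j) + (x (i + 2) + x (i + 1)) + (x i + sh x i) := by
    intro i hi
    have : ∀ j, Cc (i + 2) j * (x j + sh x j) = Cc i j * (x j + sh x j) +
        (if j = i + 2 then x j + sh x j else 0) + (if j = i then x j + sh x j else 0) := by
      intro j
      unfold Cc
      split_ifs <;> omega
    rw [sum_congr rfl fun j _ => this j, sum_add_distrib, sum_add_distrib, sum_ite_eq', sum_ite_eq']
    simp only [mem_range, hi, show i < N by omega, if_true, sh_succ]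
  intro i
  induction i with
  | zero =>
    intro hN
    have a1 : ∀ j, Cc 1 j * (x j + sh x j) = if j = 1 then x j + sh x j else 0 := by
      intro j; unfold Cc; split_ifs <;> omega
    have a0 : ∀ j, Cc 0 j * (x j + sh x j) = if j = 0 then x j + sh x j else 0 := by
      intro j; unfold Cc; split_ifs <;> omega
    simp only [zero_add, a1, a0, sum_ite_eq', mem_range, show 1 < N by omega,
      show 0 < N by omega, if_true, sh_zero]
    rw [show sh x 1 = x 0 from rfl]
    ring
  | succ i ih =>
    intro hi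
    have := ih (by omega)
    rw [h2 i hi]
    simp only [sh_succ]
    linear_combination -this

lemma Sol.orth {n : ℕ} {b b' : ℕ → ℕ → ℤ} (h : Sol n b) (h' : Sol n b') :
    ∑ i ∈ range (n + n), (-1) ^ i * ((b 0 i + sh (b 0) i) *
      ∑ j ∈ range (n + n), Cc i j * (b' 0 j + sh (b' 0) j)) = 0 := by
  rcases Nat.eq_zero_or_pos n with rfl | hn
  · simp
  set y : ℕ → ℤ := fun i => ∑ j ∈ range (n + n), Cc i j * (b' 0 j + sh (b' 0) j) with hy
  have key : ∀ k, k < n + n → ∑ i ∈ range (k + 1), (-1) ^ i * ((b 0 i + sh (b 0) i) * y i) =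
      (-1) ^ k * (b 0 k * y k) -
      ∑ i ∈ range k, (-1) ^ i * (b 0 i * b' 0 (i + 1) + b 0 i * sh (b' 0) i) := by
    intro k
    induction k with
    | zero => intro _; simp
    | succ k ih =>
      intro hk
      rw [sum_range_succ, ih (by omega), sum_range_succ]
      have := cum_step (n + n) (b' 0) k hk
      have e : y (k + 1) = y k + (b' 0 (k + 1) + sh (b' 0) k) := by
        simp only [hy]; linear_combination this
      simp only [sh_succ]
      rw [e]
      ring
  obtain ⟨k, hk⟩ : ∃ k, n + n = k + 1 := ⟨n + n - 1, by omega⟩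
  have g := h.green h' 0 k (by omega)
  have hz := h.zero 0 k (by omega)
  have e3 : ∀ l, ∑ i ∈ range l, (-1) ^ i * (b 0 i * b' 0 (i + 1) + b 0 i * sh (b' 0) i) =
      ∑ i ∈ range l, (-1) ^ i * (b 0 i * b' 0 (i + 1) - b 0 (i + 1) * b' 0 i) -
        (-1) ^ l * (b 0 l * sh (b' 0) l) := by
    intro l
    induction l with
    | zero => simp
    | succ l ih => rw [sum_range_succ, sum_range_succ, ih]; simp only [sh_succ]; ring
  change ∑ i ∈ range (n + n), (-1) ^ i * ((b 0 i + sh (b 0) i) * y i) = 0
  rw [hk, key k (by omega), e3, g, hz]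
  simp

end Pool.Agent.H.MP_84cfc0_co
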