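import Pool.Agent.H.MP_84cfc0_co.Skew
import Pool.Agent.H.MP_84cfc0_co.Kast
import Pool.Agent.H.MP_84cfc0_co.Seq

namespace Pool.Agent.H.MP_84cfc0_co

open Finset Matrix

abbrev Bt (n : ℕ) := {p : Q (n + n) // p.1.1 < p.1.2 ∧ (p.1.1 + p.1.2) % 2 = 0}

abbrev J (n : ℕ) := Bt n ⊕ Fin n

def wc {n : ℕ} : J n → ℕ × ℕ
  | Sum.inl x => (x.1.1.1 + 1, x.1.1.2)
  | Sum.inr t => (0, 2 * t + 1)

lemma wc_inj {n : ℕ} : Function.Injective (wc (n := n)) := by
  rintro (x | t) (y | s) h <;> simp only [wc, Prod.mk.injEq] at h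
  · congr 1; exact Subtype.ext (Q_ext (by omega) h.2)
  · omega
  · omega
  · congr 1; exact Fin.ext (by omega)

lemma wc_spec {n : ℕ} (j : J n) :
    (wc j).1 < (wc j).2 ∧ (wc j).2 < n + n ∧ ((wc j).1 + (wc j).2) % 2 = 1 := by
  rcases j with x | t <;> simp only [wc]
  · have := x.2; have := x.1.2; omega
  · have := t.2; omega

lemma wc_surj {n : ℕ} (r c : ℕ) (h1 : r < c) (h2 : c < n + n) (h3 : (r + c) % 2 = 1) :
    ∃ j : J n, wc j = (r, c) := by
  rcases r with _ | r
  · exact ⟨Sum.inr ⟨c / 2, by omega⟩, by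
      show (0, 2 * (c / 2) + 1) = (0, c)
      congr 1; omega⟩
  · exact ⟨Sum.inl ⟨⟨(r, c), by constructor <;> simp only <;> omega⟩, by
      constructor <;> simp only <;> omega⟩, rfl⟩

section
variable (R : Type) [CommRing R]

def ind (p q : ℕ × ℕ) : R := if p = q then 1 else 0

def bdN (i : ℕ) (p : ℕ × ℕ) : R := ind R p (i, i + 1) + if i = 0 then 0 else ind R p (i - 1, i)

def ktN (x p : ℕ × ℕ) : R := ind R p (x.1, x.2 - 1) - ind R p (x.1 + 1, x.2) +
  ind R p (x.1, x.2 + 1) + if x.1 = 0 then 0 else ind R p (x.1 - 1, x.2)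

def th (n o : ℕ) : Matrix (J n) (J n) R := fun a j =>
  Sum.elim (fun x : Bt n => ktN R x.1.1 (wc j)) (fun t : Fin n => bdN R (o + t) (wc j)) a

variable {R} {n : ℕ}

def val (v : J n → R) (p : ℕ × ℕ) : R := ∑ j, ind R (wc j) p * v j

def bb (v : J n → R) (e i : ℕ) : R := val v (i, i + (2 * e + 1))

lemma val_wc (v : J n → R) (j : J n) : val v (wc j) = v j := by
  simp [val, ind, wc_inj.eq_iff]

lemma bd_dot (v : J n → R) (i : ℕ) :
    ∑ j, bdN R i (wc j) * v j = bb v 0 i + sh (bb v 0) i := by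
  cases i <;> simp [bdN, bb, val, add_mul, sum_add_distrib]

lemma sol_of (v : J n → R) (h : ∀ x : Bt n, ∑ j, ktN R x.1.1 (wc j) * v j = 0) :
    Sol n (bb v) := by
  constructor
  · intro e i hi
    refine sum_eq_zero fun j _ => ?_
    have := wc_spec j
    rw [ind, if_neg, zero_mul]
    intro h
    rw [h] at this
    simp only at this
    omega
  · intro e i hi
    have := h ⟨⟨(i, i + (2 * e + 2)), by constructor <;> simp only <;> omega⟩, by
      constructor <;> simp only <;> omega⟩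
    simp only [ktN, add_mul, sub_mul, sum_add_distrib, sum_sub_distrib] at this
    rw [show i + (2 * e + 2) - 1 = i + (2 * e + 1) by omega] at this
    simp only [bb, val]
    rw [show i + 1 + (2 * e + 1) = i + (2 * e + 2) by omega,
      show i + (2 * (e + 1) + 1) = i + (2 * e + 2) + 1 by omega]
    cases i with
    | zero =>
      simp only [if_true, zero_mul, sum_const_zero, sh_zero] at this ⊢
      linear_combination -this
    | succ i =>
      simp only [sh_succ, bb, val, Nat.succ_ne_zero, if_false, Nat.add_sub_cancel] at this ⊢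
      rw [show i + (2 * (e + 1) + 1) = i + 1 + (2 * e + 2) by omega]
      linear_combination -this

lemma zero_of_bb (v : J n → R) (h : ∀ e i, bb v e i = 0) : v = 0 := by
  funext j
  have h1 := wc_spec j
  have := h (((wc j).2 - (wc j).1) / 2) (wc j).1
  rw [bb, show (wc j).1 + (2 * (((wc j).2 - (wc j).1) / 2) + 1) = (wc j).2 by omega,
    val_wc] at this
  exact this

end

lemma th_map (R : Type) [CommRing R] (n o : ℕ) :
    (th ℤ n o).map (Int.cast : ℤ → R) = th R n o := by
  ext a j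
  rcases a with x | t <;> simp [th, ktN, bdN, ind, apply_ite (Int.cast : ℤ → R)]

lemma th_unit0 (n : ℕ) : IsUnit (th ℤ n 0).det := by
  refine unit_det _ fun p _ v hv => ?_
  rw [th_map] at hv
  refine zero_of_bb v ((sol_of v fun x => congrFun hv (Sum.inl x)).inj_first fun i hi => ?_)
  rw [← bd_dot]
  simpa [th, mulVec, dotProduct] using congrFun hv (Sum.inr ⟨i, hi⟩)

lemma th_unit1 (n : ℕ) : IsUnit (th ℤ n n).det := by
  refine unit_det _ fun p _ v hv => ?_
  rw [th_map] at hv
  refine zero_of_bb v ((sol_of v fun x => congrFun hv (Sum.inl x)).inj_last fun i hi => ?_)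
  rw [← bd_dot]
  simpa [th, mulVec, dotProduct] using congrFun hv (Sum.inr ⟨i, hi⟩)

noncomputable def ps (n : ℕ) : Matrix (J n) (J n) ℤ := (th ℤ n 0)⁻¹

lemma th_ps (n : ℕ) : th ℤ n 0 * ps n = 1 := mul_nonsing_inv _ (th_unit0 n)

lemma ps_unit (n : ℕ) : IsUnit (ps n).det := by
  have := congrArg det (th_ps n)
  rw [det_mul, det_one] at this
  exact IsUnit.of_mul_eq_one_right _ this

lemma kt_ps (n : ℕ) (x : Bt n) (c : J n) :
    ∑ j, ktN ℤ x.1.1 (wc j) * ps n j c = if Sum.inl x = c then 1 else 0 := by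
  have := congrFun (congrFun (th_ps n) (Sum.inl x)) c
  simpa [th, mul_apply, one_apply] using this

noncomputable def bc (n : ℕ) (c : J n) : ℕ → ℕ → ℤ := bb fun j => ps n j c

noncomputable def ac (n : ℕ) (c : J n) (i : ℕ) : ℤ := bc n c 0 i + sh (bc n c 0) i

lemma bd_ps (n : ℕ) (i : ℕ) (c : J n) : ∑ j, bdN ℤ i (wc j) * ps n j c = ac n c i :=
  bd_dot _ i

lemma ac_first (n : ℕ) (i : Fin n) (c : J n) : ac n c i = if Sum.inr i = c then 1 else 0 := by
  have := congrFun (congrFun (th_ps n) (Sum.inr i)) c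
  rw [← bd_ps]
  simpa [th, mul_apply, one_apply] using this

lemma bc_sol (n : ℕ) (t : Fin n) : Sol n (bc n (Sum.inr t)) :=
  sol_of _ fun x => by simpa using kt_ps n x (Sum.inr t)

lemma X_unit (n : ℕ) :
    IsUnit (Matrix.of fun i t : Fin n => ac n (Sum.inr t) (n + i)).det := by
  have h : th ℤ n n * ps n = fromBlocks 1 0 (Matrix.of fun (i : Fin n) x => ac n (Sum.inl x) (n + i))
      (Matrix.of fun i t : Fin n => ac n (Sum.inr t) (n + i)) := by
    ext a c
    rcases a with x | i <;> rcases c with y | t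
    · simpa [th, mul_apply, one_apply] using kt_ps n x (Sum.inl y)
    · simpa [th, mul_apply] using kt_ps n x (Sum.inr t)
    · simpa [th, mul_apply] using bd_ps n (n + i) (Sum.inl y)
    · simpa [th, mul_apply] using bd_ps n (n + i) (Sum.inr t)
  have := congrArg det h
  rw [det_mul, det_fromBlocks_zero₁₂, det_one, one_mul] at this
  rw [← this]
  exact (th_unit1 n).mul (ps_unit n)

lemma ac_symm (n : ℕ) (t : Fin n) (i j : ℕ) (hij : i + j + 1 = n + n) :
    ((ac n (Sum.inr t) i : ℤ) : ZMod 2) = ac n (Sum.inr t) j := by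
  have hs := bc_sol n t
  have hsh : ∀ (x : ℕ → ℤ) k, ((sh x k : ℤ) : ZMod 2) = sh (fun l => (x l : ZMod 2)) k := by
    intro x k; cases k <;> simp
  have h2 : Sol n (fun e i => ((bc n (Sum.inr t) e i : ℤ) : ZMod 2)) := by
    constructor
    · intro e i hi; simp [hs.zero e i hi]
    · intro e i hi
      have := congrArg (Int.cast : ℤ → ZMod 2) (hs.eq e i hi)
      push_cast at this
      rw [this, hsh]
  have := h2.asymm (by decide) i j hij
  simp only [ac, Int.cast_add, hsh]
  exact this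

end Pool.Agent.H.MP_84cfc0_co
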