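import Pool.Agent.H.MP_84cfc0_co.Ent

namespace Pool.Agent.H.MP_84cfc0_co

open Finset Matrix

lemma card_R (n m : ℕ) (hm : m < n + n) (R : Set (ℕ × ℕ))
    (hR : ∀ p, p ∈ R ↔ p.1 < n + n ∧ p.2 < n + n ∧ ¬ (p.1 < m ∧ (p.2 = p.1 ∨ p.2 = p.1 + 1))) :
    Nat.card {g : Q (n + n) → Q (n + n) //
      (∀ x, g (g x) = x ∧ Adj x.1 (g x).1) ∧ ∀ i, EE m (be i) (g (be i))} =
    Nat.card {f : R → R // ∀ x : R, f (f x) = x ∧ Adj x.1 (f x).1} := by
  classical
  have forced : ∀ g : Q (n + n) → Q (n + n), (∀ x, g (g x) = x ∧ Adj x.1 (g x).1) →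
      (∀ i, EE m (be i) (g (be i))) → ∀ (i : ℕ) (x : Q (n + n)), x.1.1 = i → x.1.2 = i → i < m →
        (g x).1.1 = i ∧ (g x).1.2 = i + 1 := by
    intro g hg hE i
    induction i with
    | zero =>
      intro x h1 h2 h3
      obtain ⟨j, rfl⟩ := (be_range x).1 (by omega)
      have := hE j
      have := (hg (be j)).2
      simp only [EE, Adj] at *
      omega
    | succ i ih =>
      intro x h1 h2 h3
      have h4 := ih ⟨(i, i), by constructor <;> simp only <;> omega⟩ rfl rfl (by omega)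
      have h5 : ¬ ((g x).1.1 = i ∧ (g x).1.2 = i + 1) := by
        intro h
        have h6 := congrArg g (Q_ext (h.1.trans h4.1.symm) (h.2.trans h4.2.symm))
        rw [(hg _).1, (hg _).1] at h6
        rw [h6] at h1
        simp at h1
      obtain ⟨j, rfl⟩ := (be_range x).1 (by omega)
      have := hE j
      have := (hg (be j)).2
      simp only [EE, Adj] at *
      omega
  have forced2 : ∀ g : Q (n + n) → Q (n + n), (∀ x, g (g x) = x ∧ Adj x.1 (g x).1) →
      (∀ i, EE m (be i) (g (be i))) → ∀ (x : Q (n + n)), x.1.2 = x.1.1 + 1 → x.1.1 < m →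
        (g x).1.1 = x.1.1 ∧ (g x).1.2 = x.1.1 := by
    intro g hg hE x h1 h2
    have h4 := forced g hg hE x.1.1 ⟨(x.1.1, x.1.1), x.2.1, x.2.1⟩ rfl rfl h2
    have h6 := congrArg g (Q_ext h4.1 (h4.2.trans h1.symm))
    rw [(hg _).1] at h6
    rw [← h6]
    exact ⟨rfl, rfl⟩
  let up : R → Q (n + n) := fun x => ⟨x.1, ((hR _).1 x.2).1, ((hR _).1 x.2).2.1⟩
  have hmem : ∀ g : Q (n + n) → Q (n + n), (∀ x, g (g x) = x ∧ Adj x.1 (g x).1) →
      (∀ i, EE m (be i) (g (be i))) → ∀ x : R, (g (up x)).1 ∈ R := by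
    intro g hg hE x
    have hx := ((hR _).1 x.2).2.2
    refine (hR _).2 ⟨(g _).2.1, (g _).2.2, ?_⟩
    rintro ⟨h1, h2 | h2⟩
    · have := forced g hg hE _ (g (up x)) rfl h2 h1
      rw [(hg _).1] at this
      simp only [up] at this h1
      omega
    · have := forced2 g hg hE (g (up x)) h2 h1
      rw [(hg _).1] at this
      simp only [up] at this h1
      omega
  refine Nat.card_eq_of_bijective (fun g => ⟨fun x => ⟨(g.1 (up x)).1, hmem _ g.2.1 g.2.2 x⟩,
    fun x => ⟨Subtype.ext (congrArg (fun q : Q (n + n) => q.1) (g.2.1 (up x)).1), (g.2.1 (up x)).2⟩⟩) ⟨?_, ?_⟩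
  · rintro ⟨g, hg, hE⟩ ⟨g', hg', hE'⟩ h
    simp only [Subtype.mk.injEq] at h ⊢
    funext x
    by_cases hx : x.1 ∈ R
    · exact Subtype.ext (congrArg (fun q : R => q.1) (congrFun h ⟨x.1, hx⟩))
    · have := x.2
      rw [hR] at hx
      by_cases h2 : x.1.2 = x.1.1
      · have a := forced g hg hE _ x rfl h2 (by omega)
        have b := forced g' hg' hE' _ x rfl h2 (by omega)
        exact Q_ext (by omega) (by omega)
      · have a := forced2 g hg hE x (by omega) (by omega)
        have b := forced2 g' hg' hE' x (by omega) (by omega)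
        exact Q_ext (by omega) (by omega)
  · rintro ⟨f, hf⟩
    let g : Q (n + n) → Q (n + n) := fun x =>
      if h : x.1 ∈ R then up (f ⟨x.1, h⟩) else
        ⟨(x.1.1, if x.1.2 = x.1.1 then x.1.1 + 1 else x.1.1), x.2.1, by
          have := x.2
          rw [hR] at h
          simp only
          split_ifs <;> omega⟩
    have g1 : ∀ x : R, g (up x) = up (f x) := fun x => dif_pos x.2
    have g2 : ∀ x : Q (n + n), x.1 ∉ R →
        (g x).1 = (x.1.1, if x.1.2 = x.1.1 then x.1.1 + 1 else x.1.1) := fun x hx => by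
      simp only [g, dif_neg hx]
    refine ⟨⟨g, fun x => ?_, fun i => ?_⟩, Subtype.ext (funext fun x => Subtype.ext ?_)⟩
    · by_cases hx : x.1 ∈ R
      · have e : x = up ⟨x.1, hx⟩ := rfl
        rw [e, g1, g1, (hf _).1]
        exact ⟨rfl, (hf ⟨x.1, hx⟩).2⟩
      · have a := g2 x hx
        have := x.2
        have hx' : (g x).1 ∉ R := by
          rw [hR] at hx ⊢
          rw [a]
          simp only
          split_ifs <;> omega
        have b := g2 _ hx'
        rw [hR] at hx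
        rw [a] at b
        refine ⟨Q_ext (by rw [b]) ?_, ?_⟩
        · rw [b]; simp only; split_ifs <;> omega
        · rw [a]; simp only [Adj, true_and]; split_ifs <;> omega
    · by_cases h : (be i).1.1 = (be i).1.2 ∧ (be i).1.1 < m
      · right
        rw [g2 _ (by rw [hR]; omega)]
        simp only [h.1, if_true]
        omega
      · exact Or.inl h
    · exact congrArg (fun q : Q (n + n) => q.1) (g1 x)

theorem main (n m : ℕ) (hm : m < 2 * n) (R : Set (ℕ × ℕ))
    (hR : R = {p : ℕ × ℕ | p.1 < 2 * n ∧ p.2 < 2 * n ∧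
      ¬ ∃ i : ℕ, i < m ∧ p.1 = i ∧ (p.2 = i ∨ p.2 = i + 1)}) :
    (m ≤ n → ∃ k : ℕ, Odd k ∧
      Nat.card {f : R → R // ∀ x : R, f (f x) = x ∧ Adj x.1 (f x).1} = 2 ^ (n - m) * k ^ 2) ∧
    (n < m → Nat.card {f : R → R // ∀ x : R, f (f x) = x ∧ Adj x.1 (f x).1} = 0) := by
  have h := count_eq n m
  rw [card_R n m (by omega) R (fun p => by
    rw [hR, two_mul]
    simp only [Set.mem_ofPred_eq, and_congr_right_iff]
    intro _ _
    constructor
    · intro h h2; exact h ⟨_, h2.1, rfl, h2.2⟩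
    · rintro h ⟨i, h1, rfl, h2⟩; exact h ⟨h1, h2⟩)] at h
  constructor
  · intro hm
    obtain ⟨k, hk, hk2⟩ := GG_le n m hm
    refine ⟨k, hk, ?_⟩
    rw [h] at hk2
    exact_mod_cast hk2
  · intro hm
    rw [GG_gt n m (by omega) hm, abs_zero] at h
    exact_mod_cast h.symm

end Pool.Agent.H.MP_84cfc0_co
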