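import Mathlib

namespace Pool.Agent.H.MP_84cfc0_co

open Matrix

theorem skew_sq_aux (k : ℕ) : ∀ (ι : Type) [Fintype ι] [DecidableEq ι] (S : Matrix ι ι ℚ),
    Fintype.card ι = k → Sᵀ = -S → IsSquare S.det := by
  induction k using Nat.strong_induction_on with
  | _ k ih =>
  intro ι _ _ S hk hS
  have hs : ∀ a b, S b a = - S a b := fun a b => by
    have := congrFun (congrFun hS a) b
    simpa using this
  by_cases h0 : S = 0
  · subst h0
    rcases isEmpty_or_nonempty ι with h | h
    · simp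
    · simp
  obtain ⟨i, j, hij⟩ : ∃ i j, S i j ≠ 0 := by
    by_contra hc
    push Not at hc
    exact h0 (by ext a b; exact hc a b)
  have hd : ∀ a, S a a = 0 := fun a => by have := hs a a; linarith
  have hne : i ≠ j := by rintro rfl; exact hij (hd i)
  let p : ι → Prop := fun x => x = i ∨ x = j
  have hc2 : Fintype.card {x // p x} = 2 := by
    rw [Fintype.card_subtype]
    have : (Finset.univ.filter p) = {i, j} := by ext x; simp [p]
    rw [this, Finset.card_pair hne]
  set A := S.toBlock p p with hA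
  have hdetA : A.det = (S i j) ^ 2 := by
    let e : Fin 2 ≃ {x // p x} := (Fintype.equivFinOfCardEq hc2).symm
    rw [← Matrix.det_submatrix_equiv_self e, Matrix.det_fin_two]
    simp only [hA, submatrix_apply, toBlock_apply, hd]
    have h01 : (e 0).1 ≠ (e 1).1 := fun h => by
      have := e.injective (Subtype.ext h)
      simp at this
    rcases (e 0).2 with h1 | h1 <;> rcases (e 1).2 with h2 | h2
    · exact absurd (h1.trans h2.symm) h01
    · rw [h1, h2, hs i j]; ring
    · rw [h1, h2, hs i j]; ring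
    · exact absurd (h1.trans h2.symm) h01
  have hu : IsUnit A.det := by rw [hdetA]; exact (pow_ne_zero 2 hij).isUnit
  let _ : Invertible A := Matrix.invertibleOfIsUnitDet A hu
  rw [Matrix.det_toBlock S p, Matrix.det_fromBlocks₁₁]
  refine IsSquare.mul ⟨S i j, by rw [← pow_two]; exact hdetA⟩ ?_
  have hAT : Aᵀ = -A := by ext a b; simp [hA, toBlock_apply, hs a.1 b.1]
  have hinv : (⅟A)ᵀ = -⅟A := by
    have h1 : (⅟A)ᵀ * A = -1 := by
      have : (⅟A)ᵀ * Aᵀ = 1 := by rw [← transpose_mul, mul_invOf_self, transpose_one]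
      rw [hAT, Matrix.mul_neg] at this
      exact neg_eq_iff_eq_neg.1 this
    calc (⅟A)ᵀ = (⅟A)ᵀ * A * ⅟A := by rw [Matrix.mul_assoc, mul_invOf_self, Matrix.mul_one]
      _ = -⅟A := by rw [h1]; simp
  refine ih (Fintype.card {x // ¬ p x}) ?_ _ _ rfl ?_
  · rw [Fintype.card_subtype_compl, hc2, hk]
    have : 2 ≤ k := by rw [← hk, ← hc2]; exact Fintype.card_subtype_le _
    omega
  · have h1 : (S.toBlock p fun x => ¬ p x)ᵀ = -(S.toBlock (fun x => ¬ p x) p) := by
      ext a b; simp [toBlock_apply, hs a.1 b.1]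
    have h2 : (S.toBlock (fun x => ¬ p x) p)ᵀ = -(S.toBlock p fun x => ¬ p x) := by
      ext a b; simp [toBlock_apply, hs a.1 b.1]
    have h3 : (S.toBlock (fun x => ¬ p x) fun x => ¬ p x)ᵀ
        = -(S.toBlock (fun x => ¬ p x) fun x => ¬ p x) := by
      ext a b; simp [toBlock_apply, hs a.1 b.1]
    rw [transpose_sub, transpose_mul, transpose_mul, h1, h2, h3, hinv]
    simp only [Matrix.neg_mul, Matrix.mul_neg, neg_neg, Matrix.mul_assoc]
    abel

theorem skew_odd {ι : Type} [Fintype ι] [DecidableEq ι] (S : Matrix ι ι ℚ)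
    (hS : Sᵀ = -S) (h : Odd (Fintype.card ι)) : S.det = 0 := by
  have h1 : S.det = (-1) ^ Fintype.card ι * S.det := by
    rw [← Matrix.det_neg, ← hS, det_transpose]
  rw [h.neg_one_pow] at h1
  linarith

theorem skew_rank_one {ι : Type} [Fintype ι] [DecidableEq ι] (M : Matrix ι ι ℚ) (α : ι → ℚ)
    (h : ∀ a b, M a b + M b a = 2 * (α a * α b)) : IsSquare M.det := by
  let S : Matrix ι ι ℚ := fun a b => M a b - α a * α b
  have hS : Sᵀ = -S := by
    ext a b
    show M b a - α b * α a = -(M a b - α a * α b)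
    linarith [h a b]
  let B : Matrix ι Unit ℚ := fun a _ => α a
  let C : Matrix Unit ι ℚ := fun _ a => -α a
  let S' : Matrix (ι ⊕ Unit) (ι ⊕ Unit) ℚ := fromBlocks S B C 0
  have hS' : S'ᵀ = -S' := by
    ext a b
    rcases a with a | a <;> rcases b with b | b
    · simpa [S'] using congrFun (congrFun hS a) b
    · simp [S', B, C]
    · simp [S', B, C]
    · simp [S']
  have h1 : M.det = (fromBlocks S B C 1).det := by
    rw [Matrix.det_fromBlocks_one₂₂]
    congr 1
    ext a b
    simp [S, B, C, Matrix.mul_apply]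
  have h2 : (fromBlocks S B C (1 : Matrix Unit Unit ℚ))
      = S'.updateRow (Sum.inr ()) (S' (Sum.inr ()) + Pi.single (Sum.inr ()) 1) := by
    ext a b
    rcases a with a | a <;> rcases b with b | b <;> simp [S', updateRow_apply]
  have h3 : S'.updateRow (Sum.inr ()) (Pi.single (Sum.inr ()) 1) = fromBlocks S B 0 1 := by
    ext a b
    rcases a with a | a <;> rcases b with b | b <;> simp [S', updateRow_apply]
  rw [h1, h2, det_updateRow_add, updateRow_eq_self, h3, det_fromBlocks_zero₂₁, det_one, mul_one]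
  rcases Nat.even_or_odd (Fintype.card ι) with he | ho
  · rw [skew_odd S' hS' (by simpa using he.add_one), zero_add]
    exact skew_sq_aux _ _ S rfl hS
  · rw [skew_odd S hS ho, add_zero]
    exact skew_sq_aux _ _ S' rfl hS'

theorem unit_det {ι : Type} [Fintype ι] [DecidableEq ι] (M : Matrix ι ι ℤ)
    (h : ∀ (p : ℕ) [Fact p.Prime] (v : ι → ZMod p),
      (M.map (Int.cast : ℤ → ZMod p)) *ᵥ v = 0 → v = 0) : IsUnit M.det := by
  by_contra hu
  have hn : M.det.natAbs ≠ 1 := fun h1 => hu (Int.isUnit_iff_natAbs_eq.2 h1)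
  obtain ⟨p, hp, hd⟩ := Nat.exists_prime_and_dvd hn
  have : Fact p.Prime := ⟨hp⟩
  have h0 : (M.map (Int.cast : ℤ → ZMod p)).det = 0 := by
    have := (Int.castRingHom (ZMod p)).map_det M
    simp only [eq_intCast, RingHom.mapMatrix_apply] at this
    have h2 : ((M.det : ℤ) : ZMod p) = 0 :=
      (ZMod.intCast_zmod_eq_zero_iff_dvd _ _).2 (Int.natCast_dvd.2 hd)
    rw [h2] at this
    exact this.symm
  obtain ⟨v, hv, hv0⟩ := Matrix.exists_mulVec_eq_zero_iff.2 h0
  exact hv (h p v hv0)

end Pool.Agent.H.MP_84cfc0_co
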